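import Pool.Agent.Y725.CL.Stm

/-! Project CL, job DEP: number of matrices with a given dependent set of columns (helper702). -/

set_option autoImplicit false

open Finset

namespace Pool.Agent.Y702.CL

open Pool.Agent.H178R3.Cay Pool.Agent.Y725.CL

lemma count (k p : ℕ) (J : Finset (Fin p)) (hJ : J.Nonempty) (v : Fin k → ZMod 2) :
    #{a : Fin p → Fin k → ZMod 2 | ∑ i ∈ J, a i = v} * 2 ^ k ≤ 2 ^ (k * p) := by
  classical
  obtain ⟨i0, hi0⟩ := hJ
  have hall : Fintype.card (Fin p → Fin k → ZMod 2) = 2 ^ (k * p) := by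
    rw [Fintype.card_fun, Fintype.card_fun, ZMod.card, Fintype.card_fin, Fintype.card_fin, pow_mul]
  have hu : Fintype.card (Fin k → ZMod 2) = 2 ^ k := by
    rw [Fintype.card_fun, ZMod.card, Fintype.card_fin]
  rw [← hall, ← hu, ← card_univ (α := Fin k → ZMod 2), ← card_product, ← card_univ]
  apply card_le_card_of_injOn (fun q => q.1 + Pi.single i0 q.2) (fun _ _ => mem_univ _)
  have s : ∀ (a : Fin p → Fin k → ZMod 2) (u : Fin k → ZMod 2),
      ∑ i ∈ J, (a + (Pi.single i0 u : Fin p → Fin k → ZMod 2)) i = ∑ i ∈ J, a i + u := by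
    intro a u
    simp only [Pi.add_apply, sum_add_distrib]
    congr 1
    rw [Finset.sum_eq_single i0]
    · rw [Pi.single_eq_same]
    · intro x _ hx
      rw [Pi.single_eq_of_ne hx]
    · intro h
      exact absurd hi0 h
  rintro ⟨a, u⟩ ha ⟨b, w⟩ hb h
  simp only [coe_product, Set.mem_prod, mem_coe, mem_filter, mem_univ, true_and, and_true] at ha hb
  have h1 := s a u
  have h2 := s b w
  have h3 : a + (Pi.single i0 u : Fin p → Fin k → ZMod 2) = b + Pi.single i0 w := h
  rw [h3, h2, ha, hb] at h1
  have h4 : w = u := add_left_cancel h1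
  subst h4
  have h5 : a = b := add_right_cancel h3
  rw [h5]

lemma cast_sum {k p : ℕ} (I : Finset (V k p)) (a : Fin p → Fin k → ZMod 2) (j : Fin k) :
    ((∑ l ∈ I, full (ma a) (mb a) j l : ℤ) : ZMod 2) =
      (if (Sum.inl j : V k p) ∈ I then 1 else 0) +
        (∑ i ∈ univ.filter (fun i : Fin p => (Sum.inr (Sum.inl i) : V k p) ∈ I), a i j +
          if (Sum.inr (Sum.inr ()) : V k p) ∈ I then 1 + ∑ i, a i j else 0) := by
  classical
  have hma : ∀ i, ((ma a j i : ℤ) : ZMod 2) = a i j := by
    intro i
    unfold ma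
    rw [Int.cast_natCast, ZMod.natCast_zmod_val]
  have h1 : ∀ g : V k p → ZMod 2, ∑ x ∈ I, g x = ∑ x, if x ∈ I then g x else 0 := by
    intro g
    rw [← Finset.sum_filter, Finset.filter_mem_eq_inter, univ_inter]
  rw [Int.cast_sum, h1, Fintype.sum_sum_type, Fintype.sum_sum_type]
  congr 1
  · rw [Finset.sum_eq_single j]
    · simp [full]
    · intro j' _ hj'
      simp [full, hj']
    · intro h
      exact absurd (mem_univ j) h
  · congr 1
    · rw [Finset.sum_filter]
      apply sum_congr rfl
      intro i _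
      simp [full, hma]
    · rw [Fintype.sum_unique]
      simp [full, mb, hma]

theorem t_DEP : P_DEP := by
  classical
  intro k p I hI hIp
  set J := univ.filter (fun i : Fin p => (Sum.inr (Sum.inl i) : V k p) ∈ I) with hJ
  have hJp : #J < p := by
    refine lt_of_le_of_lt ?_ hIp
    apply card_le_card_of_injOn (fun i => (Sum.inr (Sum.inl i) : V k p))
    · intro i hi
      exact (mem_filter.1 hi).2
    · intro i _ i' _ h
      simpa using h
  have hev : ∀ (a : Fin p → Fin k → ZMod 2) (j : Fin k),
      Even (∑ l ∈ I, full (ma a) (mb a) j l) ↔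
      (if (Sum.inl j : V k p) ∈ I then (1 : ZMod 2) else 0) +
        (∑ i ∈ J, a i j + if (Sum.inr (Sum.inr ()) : V k p) ∈ I then 1 + ∑ i, a i j else 0) = 0 := by
    intro a j
    rw [← cast_sum, even_iff_two_dvd, ZMod.intCast_zmod_eq_zero_iff_dvd]
    rfl
  simp only [hev]
  have two : ∀ x : ZMod 2, x + x = 0 := fun x => by
    rw [← two_mul]
    have : (2 : ZMod 2) = 0 := by decide
    rw [this, zero_mul]
  have addeq : ∀ x y : ZMod 2, x + y = 0 ↔ y = x := by decide
  by_cases hu : (Sum.inr (Sum.inr ()) : V k p) ∈ I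
  · simp only [if_pos hu]
    have hJc : Jᶜ.Nonempty := by
      rw [← card_pos, card_compl, Fintype.card_fin]
      omega
    refine le_trans (Nat.mul_le_mul_right _ (card_le_card ?_))
      (count k p Jᶜ hJc (fun j => 1 + if (Sum.inl j : V k p) ∈ I then (1 : ZMod 2) else 0))
    intro a ha
    rw [mem_filter] at ha ⊢
    refine ⟨mem_univ _, ?_⟩
    funext j
    rw [Finset.sum_apply]
    have h1 := ha.2 j
    rw [← Finset.sum_add_sum_compl J (fun i => a i j)] at h1
    generalize (if (Sum.inl j : V k p) ∈ I then (1 : ZMod 2) else 0) = x at h1 ⊢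
    generalize ∑ i ∈ J, a i j = y at h1
    generalize ∑ i ∈ Jᶜ, a i j = z at h1 ⊢
    revert x y z
    decide
  · simp only [if_neg hu, add_zero]
    rcases J.eq_empty_or_nonempty with h | h
    · have hex : ∃ j : Fin k, (Sum.inl j : V k p) ∈ I := by
        obtain ⟨l, hl⟩ := hI
        rcases l with j | i | u
        · exact ⟨j, hl⟩
        · have : i ∈ J := mem_filter.2 ⟨mem_univ _, hl⟩
          rw [h] at this
          exact absurd this (notMem_empty _)
        · exact absurd hl hu
      obtain ⟨j, hj⟩ := hex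
      rw [filter_eq_empty_iff.2]
      · simp
      · intro a _ hcon
        have h1 := hcon j
        rw [h, sum_empty, add_zero, if_pos hj] at h1
        exact absurd h1 one_ne_zero
    · refine le_trans (Nat.mul_le_mul_right _ (card_le_card ?_))
        (count k p J h (fun j => if (Sum.inl j : V k p) ∈ I then (1 : ZMod 2) else 0))
      intro a ha
      rw [mem_filter] at ha ⊢
      refine ⟨mem_univ _, ?_⟩
      funext j
      rw [Finset.sum_apply]
      exact (addeq _ _).1 (ha.2 j)

end Pool.Agent.Y702.CL
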